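import Pool.Agent.Gen.F5.X123DDCm5.S000

set_option autoImplicit false
set_option maxRecDepth 100000

namespace Pool.Agent.Gen.F5.X123DDCm5

open Pool.Agent.Helper72.F5

def n0 : Cl (O (nat_lit 5)) (R (nat_lit 18641))
    (p (nat_lit 0xc1) (nat_lit 1) (p (nat_lit 0x81) (nat_lit 1) (p (nat_lit 0x111) (nat_lit 1) (p (nat_lit 0xd1) (nat_lit 1) (p (nat_lit 0x89) (nat_lit 0) (p (nat_lit 0x41) (nat_lit 0) (p (nat_lit 0x10a0a8908881a) (nat_lit 0) (p (nat_lit 0x98a0888079a) (nat_lit 0) (p (nat_lit 0x108898807871a) (nat_lit 0) (p (nat_lit 0x8090787069a) (nat_lit 0) (p (nat_lit 0x8000000000800080706860a) (nat_lit 0) (p (nat_lit 0x8000000000800070686058a) (nat_lit 0) (p (nat_lit 0x10786058502) (nat_lit 0) (p (nat_lit 0x705850482) (nat_lit 0) (p (nat_lit 0x16000c) (nat_lit 0) (p (nat_lit 0x68512) (nat_lit 0) (p (nat_lit 0x58492) (nat_lit 0) (p (nat_lit 0x48412) (nat_lit 0) (p (nat_lit 0x50312) (nat_lit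 0) (p (nat_lit 0x40292) (nat_lit 0) (p (nat_lit 0x30212) (nat_lit 0) (p (nat_lit 0x38112) (nat_lit 0) (p (nat_lit 0x28092) (nat_lit 0) (p (nat_lit 0x18012) (nat_lit 0) pn)))))))))))))))))))))))) :=
  Cl.node (nat_lit 0x101) (nat_lit 2) (by decide +kernel) (ClAll.succ (ClAll.succ ClAll.zero s12) s13)

def n1 : Cl (O (nat_lit 5)) (R (nat_lit 18641))
    (p (nat_lit 0x101) (nat_lit 1) (p (nat_lit 0x119) (nat_lit 0) (p (nat_lit 0xd1) (nat_lit 0) (p (nat_lit 0x89) (nat_lit 0) (p (nat_lit 0x41) (nat_lit 0) (p (nat_lit 0x10a0a8908881a) (nat_lit 0) (p (nat_lit 0x98a0888079a) (nat_lit 0) (p (nat_lit 0x108898807871a) (nat_lit 0) (p (nat_lit 0x8090787069a) (nat_lit 0) (p (nat_lit 0x8000000000800080706860a) (nat_lit 0) (p (nat_lit 0x8000000000800070686058a) (nat_lit 0) (p (nat_lit 0x10786058502) (nat_lit 0) (p (nat_lit 0x705850482) (nat_lit 0) (p (nat_lit 0x16000c) (nat_lit 0) (p (nat_lit 0x68512)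 (nat_lit 0) (p (nat_lit 0x58492) (nat_lit 0) (p (nat_lit 0x48412) (nat_lit 0) (p (nat_lit 0x50312) (nat_lit 0) (p (nat_lit 0x40292) (nat_lit 0) (p (nat_lit 0x30212) (nat_lit 0) (p (nat_lit 0x38112) (nat_lit 0) (p (nat_lit 0x28092) (nat_lit 0) (p (nat_lit 0x18012) (nat_lit 0) pn))))))))))))))))))))))) :=
  Cl.node (nat_lit 0x81) (nat_lit 2) (by decide +kernel) (ClAll.succ (ClAll.succ ClAll.zero s1) s2)

def n2 : Cl (O (nat_lit 5)) (R (nat_lit 18641))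
    (p (nat_lit 0xc1) (nat_lit 0) (p (nat_lit 0x119) (nat_lit 1) (p (nat_lit 0xd1) (nat_lit 0) (p (nat_lit 0x89) (nat_lit 0) (p (nat_lit 0x41) (nat_lit 0) (p (nat_lit 0x10a0a8908881a) (nat_lit 0) (p (nat_lit 0x98a0888079a) (nat_lit 0) (p (nat_lit 0x108898807871a) (nat_lit 0) (p (nat_lit 0x8090787069a) (nat_lit 0) (p (nat_lit 0x8000000000800080706860a) (nat_lit 0) (p (nat_lit 0x8000000000800070686058a) (nat_lit 0) (p (nat_lit 0x10786058502) (nat_lit 0) (p (nat_lit 0x705850482) (nat_lit 0) (p (nat_lit 0x16000c) (nat_lit 0) (p (nat_lit 0x68512) (nat_lit 0) (p (nat_lit 0x58492) (nat_lit 0) (p (nat_lit 0x48412) (nat_lit 0) (p (nat_lit 0x50312) (nat_lit 0) (p (nat_lit 0x40292) (nat_lit 0) (p (nat_lit 0x30212) (nat_lit 0) (p (nat_lit 0x38112) (nat_lit 0) (p (nat_lit 0x28092) (nat_lit 0) (p (nat_lit 0x18012) (nat_lit 0) pn))))))))))))))))))))))) :=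
  Cl.node (nat_lit 0xc9) (nat_lit 2) (by decide +kernel) (ClAll.succ (ClAll.succ ClAll.zero s3) s4)

def n3 : Cl (O (nat_lit 5)) (R (nat_lit 18641))
    (p (nat_lit 0xc1) (nat_lit 1) (p (nat_lit 0x119) (nat_lit 1) (p (nat_lit 0xd1) (nat_lit 0) (p (nat_lit 0x89) (nat_lit 0) (p (nat_lit 0x41) (nat_lit 0) (p (nat_lit 0x10a0a8908881a) (nat_lit 0) (p (nat_lit 0x98a0888079a) (nat_lit 0) (p (nat_lit 0x108898807871a) (nat_lit 0) (p (nat_lit 0x8090787069a) (nat_lit 0) (p (nat_lit 0x8000000000800080706860a) (nat_lit 0) (p (nat_lit 0x8000000000800070686058a) (nat_lit 0) (p (nat_lit 0x10786058502) (nat_lit 0) (p (nat_lit 0x705850482) (nat_lit 0) (p (nat_lit 0x16000c) (nat_lit 0) (p (nat_lit 0x68512) (nat_lit 0) (p (nat_lit 0x58492) (nat_lit 0) (p (nat_lit 0x48412) (nat_lit 0) (p (nat_lit 0x50312) (nat_lit 0) (p (nat_lit 0x40292) (nat_lit 0) (p (nat_lit 0x30212) (nat_lit 0) (p (nat_lit 0x38112) (nat_lit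 0) (p (nat_lit 0x28092) (nat_lit 0) (p (nat_lit 0x18012) (nat_lit 0) pn))))))))))))))))))))))) :=
  Cl.node (nat_lit 0x81) (nat_lit 2) (by decide +kernel) (ClAll.succ (ClAll.succ ClAll.zero s5) s6)

def n4 : Cl (O (nat_lit 5)) (R (nat_lit 18641))
    (p (nat_lit 0x101) (nat_lit 1) (p (nat_lit 0x111) (nat_lit 0) (p (nat_lit 0xd1) (nat_lit 1) (p (nat_lit 0x89) (nat_lit 0) (p (nat_lit 0x41) (nat_lit 0) (p (nat_lit 0x10a0a8908881a) (nat_lit 0) (p (nat_lit 0x98a0888079a) (nat_lit 0) (p (nat_lit 0x108898807871a) (nat_lit 0) (p (nat_lit 0x8090787069a) (nat_lit 0) (p (nat_lit 0x8000000000800080706860a) (nat_lit 0) (p (nat_lit 0x8000000000800070686058a) (nat_lit 0) (p (nat_lit 0x10786058502) (nat_lit 0) (p (nat_lit 0x705850482) (nat_lit 0) (p (nat_lit 0x16000c) (nat_lit 0) (p (nat_lit 0x68512) (nat_lit 0) (p (nat_lit 0x58492) (nat_lit 0) (p (nat_lit 0x48412) (nat_lit 0) (p (nat_lit 0x50312) (nat_lit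 0) (p (nat_lit 0x40292) (nat_lit 0) (p (nat_lit 0x30212) (nat_lit 0) (p (nat_lit 0x38112) (nat_lit 0) (p (nat_lit 0x28092) (nat_lit 0) (p (nat_lit 0x18012) (nat_lit 0) pn))))))))))))))))))))))) :=
  Cl.node (nat_lit 0x81) (nat_lit 2) (by decide +kernel) (ClAll.succ (ClAll.succ ClAll.zero s8) s9)

def n5 : Cl (O (nat_lit 5)) (R (nat_lit 18641))
    (p (nat_lit 0x81) (nat_lit 1) (p (nat_lit 0x111) (nat_lit 1) (p (nat_lit 0xd1) (nat_lit 1) (p (nat_lit 0x89) (nat_lit 0) (p (nat_lit 0x41) (nat_lit 0) (p (nat_lit 0x10a0a8908881a) (nat_lit 0) (p (nat_lit 0x98a0888079a) (nat_lit 0) (p (nat_lit 0x108898807871a) (nat_lit 0) (p (nat_lit 0x8090787069a) (nat_lit 0) (p (nat_lit 0x8000000000800080706860a) (nat_lit 0) (p (nat_lit 0x8000000000800070686058a) (nat_lit 0) (p (nat_lit 0x10786058502) (nat_lit 0) (p (nat_lit 0x705850482) (nat_lit 0) (p (nat_lit 0x16000c) (nat_lit 0) (p (nat_lit 0x68512) (nat_lit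 0) (p (nat_lit 0x58492) (nat_lit 0) (p (nat_lit 0x48412) (nat_lit 0) (p (nat_lit 0x50312) (nat_lit 0) (p (nat_lit 0x40292) (nat_lit 0) (p (nat_lit 0x30212) (nat_lit 0) (p (nat_lit 0x38112) (nat_lit 0) (p (nat_lit 0x28092) (nat_lit 0) (p (nat_lit 0x18012) (nat_lit 0) pn))))))))))))))))))))))) :=
  Cl.node (nat_lit 0xc1) (nat_lit 2) (by decide +kernel) (ClAll.succ (ClAll.succ ClAll.zero s11) n0)

def n6 : Cl (O (nat_lit 5)) (R (nat_lit 18641))
    (p (nat_lit 0x101) (nat_lit 0) (p (nat_lit 0x111) (nat_lit 0) (p (nat_lit 0xd1) (nat_lit 1) (p (nat_lit 0x81) (nat_lit 0) (p (nat_lit 0x41) (nat_lit 1) (p (nat_lit 0x10a0a8908881a) (nat_lit 0) (p (nat_lit 0x98a0888079a) (nat_lit 0) (p (nat_lit 0x108898807871a) (nat_lit 0) (p (nat_lit 0x8090787069a) (nat_lit 0) (p (nat_lit 0x8000000000800080706860a) (nat_lit 0) (p (nat_lit 0x8000000000800070686058a) (nat_lit 0) (p (nat_lit 0x10786058502) (nat_lit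 0) (p (nat_lit 0x705850482) (nat_lit 0) (p (nat_lit 0x16000c) (nat_lit 0) (p (nat_lit 0x68512) (nat_lit 0) (p (nat_lit 0x58492) (nat_lit 0) (p (nat_lit 0x48412) (nat_lit 0) (p (nat_lit 0x50312) (nat_lit 0) (p (nat_lit 0x40292) (nat_lit 0) (p (nat_lit 0x30212) (nat_lit 0) (p (nat_lit 0x38112) (nat_lit 0) (p (nat_lit 0x28092) (nat_lit 0) (p (nat_lit 0x18012) (nat_lit 0) pn))))))))))))))))))))))) :=
  Cl.node (nat_lit 0x109) (nat_lit 2) (by decide +kernel) (ClAll.succ (ClAll.succ ClAll.zero s23) s24)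

def n7 : Cl (O (nat_lit 5)) (R (nat_lit 18641))
    (p (nat_lit 0x119) (nat_lit 0) (p (nat_lit 0xd1) (nat_lit 0) (p (nat_lit 0x89) (nat_lit 0) (p (nat_lit 0x41) (nat_lit 0) (p (nat_lit 0x10a0a8908881a) (nat_lit 0) (p (nat_lit 0x98a0888079a) (nat_lit 0) (p (nat_lit 0x108898807871a) (nat_lit 0) (p (nat_lit 0x8090787069a) (nat_lit 0) (p (nat_lit 0x8000000000800080706860a) (nat_lit 0) (p (nat_lit 0x8000000000800070686058a) (nat_lit 0) (p (nat_lit 0x10786058502) (nat_lit 0) (p (nat_lit 0x705850482) (nat_lit 0) (p (nat_lit 0x16000c) (nat_lit 0) (p (nat_lit 0x68512) (nat_lit 0) (p (nat_lit 0x58492) (nat_lit 0) (p (nat_lit 0x48412) (nat_lit 0) (p (nat_lit 0x50312) (nat_lit 0) (p (nat_lit 0x40292) (nat_lit 0) (p (nat_lit 0x30212) (nat_lit 0) (p (nat_lit 0x38112) (nat_lit 0) (p (nat_lit 0x28092) (nat_lit 0) (p (nat_lit 0x18012) (nat_lit 0) pn)))))))))))))))))))))) :=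
  Cl.node (nat_lit 0x101) (nat_lit 2) (by decide +kernel) (ClAll.succ (ClAll.succ ClAll.zero s0) n1)

def n8 : Cl (O (nat_lit 5)) (R (nat_lit 18641))
    (p (nat_lit 0x119) (nat_lit 1) (p (nat_lit 0xd1) (nat_lit 0) (p (nat_lit 0x89) (nat_lit 0) (p (nat_lit 0x41) (nat_lit 0) (p (nat_lit 0x10a0a8908881a) (nat_lit 0) (p (nat_lit 0x98a0888079a) (nat_lit 0) (p (nat_lit 0x108898807871a) (nat_lit 0) (p (nat_lit 0x8090787069a) (nat_lit 0) (p (nat_lit 0x8000000000800080706860a) (nat_lit 0) (p (nat_lit 0x8000000000800070686058a) (nat_lit 0) (p (nat_lit 0x10786058502) (nat_lit 0) (p (nat_lit 0x705850482) (nat_lit 0) (p (nat_lit 0x16000c) (nat_lit 0) (p (nat_lit 0x68512) (nat_lit 0) (p (nat_lit 0x58492) (nat_lit 0) (p (nat_lit 0x48412) (nat_lit 0) (p (nat_lit 0x50312) (nat_lit 0) (p (nat_lit 0x40292) (nat_lit 0) (p (nat_lit 0x30212) (nat_lit 0) (p (nat_lit 0x38112) (nat_lit 0) (p (nat_lit 0x28092)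 (nat_lit 0) (p (nat_lit 0x18012) (nat_lit 0) pn)))))))))))))))))))))) :=
  Cl.node (nat_lit 0xc1) (nat_lit 2) (by decide +kernel) (ClAll.succ (ClAll.succ ClAll.zero n2) n3)

def n9 : Cl (O (nat_lit 5)) (R (nat_lit 18641))
    (p (nat_lit 0x111) (nat_lit 0) (p (nat_lit 0xd1) (nat_lit 1) (p (nat_lit 0x89) (nat_lit 0) (p (nat_lit 0x41) (nat_lit 0) (p (nat_lit 0x10a0a8908881a) (nat_lit 0) (p (nat_lit 0x98a0888079a) (nat_lit 0) (p (nat_lit 0x108898807871a) (nat_lit 0) (p (nat_lit 0x8090787069a) (nat_lit 0) (p (nat_lit 0x8000000000800080706860a) (nat_lit 0) (p (nat_lit 0x8000000000800070686058a) (nat_lit 0) (p (nat_lit 0x10786058502) (nat_lit 0) (p (nat_lit 0x705850482) (nat_lit 0) (p (nat_lit 0x16000c) (nat_lit 0) (p (nat_lit 0x68512) (nat_lit 0) (p (nat_lit 0x58492) (nat_lit 0) (p (nat_lit 0x48412) (nat_lit 0) (p (nat_lit 0x50312) (nat_lit 0) (p (nat_lit 0x40292) (nat_lit 0) (p (nat_lit 0x30212)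 (nat_lit 0) (p (nat_lit 0x38112) (nat_lit 0) (p (nat_lit 0x28092) (nat_lit 0) (p (nat_lit 0x18012) (nat_lit 0) pn)))))))))))))))))))))) :=
  Cl.node (nat_lit 0x101) (nat_lit 2) (by decide +kernel) (ClAll.succ (ClAll.succ ClAll.zero s7) n4)

def n10 : Cl (O (nat_lit 5)) (R (nat_lit 18641))
    (p (nat_lit 0x111) (nat_lit 1) (p (nat_lit 0xd1) (nat_lit 1) (p (nat_lit 0x89) (nat_lit 0) (p (nat_lit 0x41) (nat_lit 0) (p (nat_lit 0x10a0a8908881a) (nat_lit 0) (p (nat_lit 0x98a0888079a) (nat_lit 0) (p (nat_lit 0x108898807871a) (nat_lit 0) (p (nat_lit 0x8090787069a) (nat_lit 0) (p (nat_lit 0x8000000000800080706860a) (nat_lit 0) (p (nat_lit 0x8000000000800070686058a) (nat_lit 0) (p (nat_lit 0x10786058502) (nat_lit 0) (p (nat_lit 0x705850482) (nat_lit 0) (p (nat_lit 0x16000c) (nat_lit 0) (p (nat_lit 0x68512) (nat_lit 0) (p (nat_lit 0x58492) (nat_lit 0) (p (nat_lit 0x48412) (nat_lit 0) (p (nat_lit 0x50312)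 (nat_lit 0) (p (nat_lit 0x40292) (nat_lit 0) (p (nat_lit 0x30212) (nat_lit 0) (p (nat_lit 0x38112) (nat_lit 0) (p (nat_lit 0x28092) (nat_lit 0) (p (nat_lit 0x18012) (nat_lit 0) pn)))))))))))))))))))))) :=
  Cl.node (nat_lit 0x81) (nat_lit 2) (by decide +kernel) (ClAll.succ (ClAll.succ ClAll.zero s10) n5)

def n11 : Cl (O (nat_lit 5)) (R (nat_lit 18641))
    (p (nat_lit 0x119) (nat_lit 0) (p (nat_lit 0xc9) (nat_lit 0) (p (nat_lit 0x89) (nat_lit 1) (p (nat_lit 0x41) (nat_lit 0) (p (nat_lit 0x10a0a8908881a) (nat_lit 0) (p (nat_lit 0x98a0888079a) (nat_lit 0) (p (nat_lit 0x108898807871a) (nat_lit 0) (p (nat_lit 0x8090787069a) (nat_lit 0) (p (nat_lit 0x8000000000800080706860a) (nat_lit 0) (p (nat_lit 0x8000000000800070686058a) (nat_lit 0) (p (nat_lit 0x10786058502) (nat_lit 0) (p (nat_lit 0x705850482) (nat_lit 0) (p (nat_lit 0x16000c) (nat_lit 0) (p (nat_lit 0x68512) (nat_lit 0) (p (nat_lit 0x58492)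 (nat_lit 0) (p (nat_lit 0x48412) (nat_lit 0) (p (nat_lit 0x50312) (nat_lit 0) (p (nat_lit 0x40292) (nat_lit 0) (p (nat_lit 0x30212) (nat_lit 0) (p (nat_lit 0x38112) (nat_lit 0) (p (nat_lit 0x28092) (nat_lit 0) (p (nat_lit 0x18012) (nat_lit 0) pn)))))))))))))))))))))) :=
  Cl.node (nat_lit 0x101) (nat_lit 2) (by decide +kernel) (ClAll.succ (ClAll.succ ClAll.zero s14) s15)

def n12 : Cl (O (nat_lit 5)) (R (nat_lit 18641))
    (p (nat_lit 0x119) (nat_lit 1) (p (nat_lit 0xc9) (nat_lit 0) (p (nat_lit 0x89) (nat_lit 1) (p (nat_lit 0x41) (nat_lit 0) (p (nat_lit 0x10a0a8908881a) (nat_lit 0) (p (nat_lit 0x98a0888079a) (nat_lit 0) (p (nat_lit 0x108898807871a) (nat_lit 0) (p (nat_lit 0x8090787069a) (nat_lit 0) (p (nat_lit 0x8000000000800080706860a) (nat_lit 0) (p (nat_lit 0x8000000000800070686058a) (nat_lit 0) (p (nat_lit 0x10786058502) (nat_lit 0) (p (nat_lit 0x705850482) (nat_lit 0) (p (nat_lit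 0x16000c) (nat_lit 0) (p (nat_lit 0x68512) (nat_lit 0) (p (nat_lit 0x58492) (nat_lit 0) (p (nat_lit 0x48412) (nat_lit 0) (p (nat_lit 0x50312) (nat_lit 0) (p (nat_lit 0x40292) (nat_lit 0) (p (nat_lit 0x30212) (nat_lit 0) (p (nat_lit 0x38112) (nat_lit 0) (p (nat_lit 0x28092) (nat_lit 0) (p (nat_lit 0x18012) (nat_lit 0) pn)))))))))))))))))))))) :=
  Cl.node (nat_lit 0xc1) (nat_lit 2) (by decide +kernel) (ClAll.succ (ClAll.succ ClAll.zero s16) s17)

def n13 : Cl (O (nat_lit 5)) (R (nat_lit 18641))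
    (p (nat_lit 0x119) (nat_lit 0) (p (nat_lit 0xd1) (nat_lit 0) (p (nat_lit 0x81) (nat_lit 0) (p (nat_lit 0x41) (nat_lit 1) (p (nat_lit 0x10a0a8908881a) (nat_lit 0) (p (nat_lit 0x98a0888079a) (nat_lit 0) (p (nat_lit 0x108898807871a) (nat_lit 0) (p (nat_lit 0x8090787069a) (nat_lit 0) (p (nat_lit 0x8000000000800080706860a) (nat_lit 0) (p (nat_lit 0x8000000000800070686058a) (nat_lit 0) (p (nat_lit 0x10786058502) (nat_lit 0) (p (nat_lit 0x705850482) (nat_lit 0) (p (nat_lit 0x16000c) (nat_lit 0) (p (nat_lit 0x68512) (nat_lit 0) (p (nat_lit 0x58492) (nat_lit 0) (p (nat_lit 0x48412) (nat_lit 0) (p (nat_lit 0x50312) (nat_lit 0) (p (nat_lit 0x40292) (nat_lit 0) (p (nat_lit 0x30212) (nat_lit 0) (p (nat_lit 0x38112) (nat_lit 0) (p (nat_lit 0x28092) (nat_lit 0) (p (nat_lit 0x18012) (nat_lit 0) pn)))))))))))))))))))))) :=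
  Cl.node (nat_lit 0x101) (nat_lit 2) (by decide +kernel) (ClAll.succ (ClAll.succ ClAll.zero s19) s20)

def n14 : Cl (O (nat_lit 5)) (R (nat_lit 18641))
    (p (nat_lit 0x119) (nat_lit 1) (p (nat_lit 0xd1) (nat_lit 0) (p (nat_lit 0x81) (nat_lit 0) (p (nat_lit 0x41) (nat_lit 1) (p (nat_lit 0x10a0a8908881a) (nat_lit 0) (p (nat_lit 0x98a0888079a) (nat_lit 0) (p (nat_lit 0x108898807871a) (nat_lit 0) (p (nat_lit 0x8090787069a) (nat_lit 0) (p (nat_lit 0x8000000000800080706860a) (nat_lit 0) (p (nat_lit 0x8000000000800070686058a) (nat_lit 0) (p (nat_lit 0x10786058502) (nat_lit 0) (p (nat_lit 0x705850482) (nat_lit 0) (p (nat_lit 0x16000c) (nat_lit 0) (p (nat_lit 0x68512) (nat_lit 0) (p (nat_lit 0x58492) (nat_lit 0) (p (nat_lit 0x48412) (nat_lit 0) (p (nat_lit 0x50312) (nat_lit 0) (p (nat_lit 0x40292) (nat_lit 0) (p (nat_lit 0x30212) (nat_lit 0) (p (nat_lit 0x38112) (nat_lit 0) (p (nat_lit 0x28092)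 (nat_lit 0) (p (nat_lit 0x18012) (nat_lit 0) pn)))))))))))))))))))))) :=
  Cl.node (nat_lit 0xc1) (nat_lit 2) (by decide +kernel) (ClAll.succ (ClAll.succ ClAll.zero s21) s22)

def n15 : Cl (O (nat_lit 5)) (R (nat_lit 18641))
    (p (nat_lit 0x111) (nat_lit 0) (p (nat_lit 0xd1) (nat_lit 1) (p (nat_lit 0x81) (nat_lit 0) (p (nat_lit 0x41) (nat_lit 1) (p (nat_lit 0x10a0a8908881a) (nat_lit 0) (p (nat_lit 0x98a0888079a) (nat_lit 0) (p (nat_lit 0x108898807871a) (nat_lit 0) (p (nat_lit 0x8090787069a) (nat_lit 0) (p (nat_lit 0x8000000000800080706860a) (nat_lit 0) (p (nat_lit 0x8000000000800070686058a) (nat_lit 0) (p (nat_lit 0x10786058502) (nat_lit 0) (p (nat_lit 0x705850482) (nat_lit 0) (p (nat_lit 0x16000c) (nat_lit 0) (p (nat_lit 0x68512) (nat_lit 0) (p (nat_lit 0x58492) (nat_lit 0) (p (nat_lit 0x48412) (nat_lit 0) (p (nat_lit 0x50312) (nat_lit 0) (p (nat_lit 0x40292) (nat_lit 0) (p (nat_lit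 0x30212) (nat_lit 0) (p (nat_lit 0x38112) (nat_lit 0) (p (nat_lit 0x28092) (nat_lit 0) (p (nat_lit 0x18012) (nat_lit 0) pn)))))))))))))))))))))) :=
  Cl.node (nat_lit 0x101) (nat_lit 2) (by decide +kernel) (ClAll.succ (ClAll.succ ClAll.zero n6) s25)

def n16 : Cl (O (nat_lit 5)) (R (nat_lit 18641))
    (p (nat_lit 0xd1) (nat_lit 0) (p (nat_lit 0x89) (nat_lit 0) (p (nat_lit 0x41) (nat_lit 0) (p (nat_lit 0x10a0a8908881a) (nat_lit 0) (p (nat_lit 0x98a0888079a) (nat_lit 0) (p (nat_lit 0x108898807871a) (nat_lit 0) (p (nat_lit 0x8090787069a) (nat_lit 0) (p (nat_lit 0x8000000000800080706860a) (nat_lit 0) (p (nat_lit 0x8000000000800070686058a) (nat_lit 0) (p (nat_lit 0x10786058502) (nat_lit 0) (p (nat_lit 0x705850482) (nat_lit 0) (p (nat_lit 0x16000c) (nat_lit 0) (p (nat_lit 0x68512) (nat_lit 0) (p (nat_lit 0x58492) (nat_lit 0) (p (nat_lit 0x48412) (nat_lit 0) (p (nat_lit 0x50312) (nat_lit 0) (p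 (nat_lit 0x40292) (nat_lit 0) (p (nat_lit 0x30212) (nat_lit 0) (p (nat_lit 0x38112) (nat_lit 0) (p (nat_lit 0x28092) (nat_lit 0) (p (nat_lit 0x18012) (nat_lit 0) pn))))))))))))))))))))) :=
  Cl.node (nat_lit 0x119) (nat_lit 2) (by decide +kernel) (ClAll.succ (ClAll.succ ClAll.zero n7) n8)

def n17 : Cl (O (nat_lit 5)) (R (nat_lit 18641))
    (p (nat_lit 0xd1) (nat_lit 1) (p (nat_lit 0x89) (nat_lit 0) (p (nat_lit 0x41) (nat_lit 0) (p (nat_lit 0x10a0a8908881a) (nat_lit 0) (p (nat_lit 0x98a0888079a) (nat_lit 0) (p (nat_lit 0x108898807871a) (nat_lit 0) (p (nat_lit 0x8090787069a) (nat_lit 0) (p (nat_lit 0x8000000000800080706860a) (nat_lit 0) (p (nat_lit 0x8000000000800070686058a) (nat_lit 0) (p (nat_lit 0x10786058502) (nat_lit 0) (p (nat_lit 0x705850482) (nat_lit 0) (p (nat_lit 0x16000c) (nat_lit 0) (p (nat_lit 0x68512) (nat_lit 0) (p (nat_lit 0x58492) (nat_lit 0) (p (nat_lit 0x48412) (nat_lit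 0) (p (nat_lit 0x50312) (nat_lit 0) (p (nat_lit 0x40292) (nat_lit 0) (p (nat_lit 0x30212) (nat_lit 0) (p (nat_lit 0x38112) (nat_lit 0) (p (nat_lit 0x28092) (nat_lit 0) (p (nat_lit 0x18012) (nat_lit 0) pn))))))))))))))))))))) :=
  Cl.node (nat_lit 0x111) (nat_lit 2) (by decide +kernel) (ClAll.succ (ClAll.succ ClAll.zero n9) n10)

def n18 : Cl (O (nat_lit 5)) (R (nat_lit 18641))
    (p (nat_lit 0xc9) (nat_lit 0) (p (nat_lit 0x89) (nat_lit 1) (p (nat_lit 0x41) (nat_lit 0) (p (nat_lit 0x10a0a8908881a) (nat_lit 0) (p (nat_lit 0x98a0888079a) (nat_lit 0) (p (nat_lit 0x108898807871a) (nat_lit 0) (p (nat_lit 0x8090787069a) (nat_lit 0) (p (nat_lit 0x8000000000800080706860a) (nat_lit 0) (p (nat_lit 0x8000000000800070686058a) (nat_lit 0) (p (nat_lit 0x10786058502) (nat_lit 0) (p (nat_lit 0x705850482) (nat_lit 0) (p (nat_lit 0x16000c) (nat_lit 0) (p (nat_lit 0x68512) (nat_lit 0) (p (nat_lit 0x58492)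 (nat_lit 0) (p (nat_lit 0x48412) (nat_lit 0) (p (nat_lit 0x50312) (nat_lit 0) (p (nat_lit 0x40292) (nat_lit 0) (p (nat_lit 0x30212) (nat_lit 0) (p (nat_lit 0x38112) (nat_lit 0) (p (nat_lit 0x28092) (nat_lit 0) (p (nat_lit 0x18012) (nat_lit 0) pn))))))))))))))))))))) :=
  Cl.node (nat_lit 0x119) (nat_lit 2) (by decide +kernel) (ClAll.succ (ClAll.succ ClAll.zero n11) n12)

def n19 : Cl (O (nat_lit 5)) (R (nat_lit 18641))
    (p (nat_lit 0xd1) (nat_lit 0) (p (nat_lit 0x81) (nat_lit 0) (p (nat_lit 0x41) (nat_lit 1) (p (nat_lit 0x10a0a8908881a) (nat_lit 0) (p (nat_lit 0x98a0888079a) (nat_lit 0) (p (nat_lit 0x108898807871a) (nat_lit 0) (p (nat_lit 0x8090787069a) (nat_lit 0) (p (nat_lit 0x8000000000800080706860a) (nat_lit 0) (p (nat_lit 0x8000000000800070686058a) (nat_lit 0) (p (nat_lit 0x10786058502) (nat_lit 0) (p (nat_lit 0x705850482) (nat_lit 0) (p (nat_lit 0x16000c) (nat_lit 0) (p (nat_lit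 0x68512) (nat_lit 0) (p (nat_lit 0x58492) (nat_lit 0) (p (nat_lit 0x48412) (nat_lit 0) (p (nat_lit 0x50312) (nat_lit 0) (p (nat_lit 0x40292) (nat_lit 0) (p (nat_lit 0x30212) (nat_lit 0) (p (nat_lit 0x38112) (nat_lit 0) (p (nat_lit 0x28092) (nat_lit 0) (p (nat_lit 0x18012) (nat_lit 0) pn))))))))))))))))))))) :=
  Cl.node (nat_lit 0x119) (nat_lit 2) (by decide +kernel) (ClAll.succ (ClAll.succ ClAll.zero n13) n14)

def n20 : Cl (O (nat_lit 5)) (R (nat_lit 18641))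
    (p (nat_lit 0xd1) (nat_lit 1) (p (nat_lit 0x81) (nat_lit 0) (p (nat_lit 0x41) (nat_lit 1) (p (nat_lit 0x10a0a8908881a) (nat_lit 0) (p (nat_lit 0x98a0888079a) (nat_lit 0) (p (nat_lit 0x108898807871a) (nat_lit 0) (p (nat_lit 0x8090787069a) (nat_lit 0) (p (nat_lit 0x8000000000800080706860a) (nat_lit 0) (p (nat_lit 0x8000000000800070686058a) (nat_lit 0) (p (nat_lit 0x10786058502) (nat_lit 0) (p (nat_lit 0x705850482) (nat_lit 0) (p (nat_lit 0x16000c) (nat_lit 0) (p (nat_lit 0x68512) (nat_lit 0) (p (nat_lit 0x58492) (nat_lit 0) (p (nat_lit 0x48412) (nat_lit 0) (p (nat_lit 0x50312) (nat_lit 0) (p (nat_lit 0x40292) (nat_lit 0) (p (nat_lit 0x30212) (nat_lit 0) (p (nat_lit 0x38112) (nat_lit 0) (p (nat_lit 0x28092) (nat_lit 0) (p (nat_lit 0x18012) (nat_lit 0) pn))))))))))))))))))))) :=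
  Cl.node (nat_lit 0x111) (nat_lit 2) (by decide +kernel) (ClAll.succ (ClAll.succ ClAll.zero n15) s26)

def n21 : Cl (O (nat_lit 5)) (R (nat_lit 18641))
    (p (nat_lit 0xc1) (nat_lit 0) (p (nat_lit 0x81) (nat_lit 1) (p (nat_lit 0x41) (nat_lit 1) (p (nat_lit 0x10a0a8908881a) (nat_lit 0) (p (nat_lit 0x98a0888079a) (nat_lit 0) (p (nat_lit 0x108898807871a) (nat_lit 0) (p (nat_lit 0x8090787069a) (nat_lit 0) (p (nat_lit 0x8000000000800080706860a) (nat_lit 0) (p (nat_lit 0x8000000000800070686058a) (nat_lit 0) (p (nat_lit 0x10786058502) (nat_lit 0) (p (nat_lit 0x705850482) (nat_lit 0) (p (nat_lit 0x16000c) (nat_lit 0) (p (nat_lit 0x68512) (nat_lit 0) (p (nat_lit 0x58492) (nat_lit 0) (p (nat_lit 0x48412) (nat_lit 0) (p (nat_lit 0x50312) (nat_lit 0) (p (nat_lit 0x40292) (nat_lit 0) (p (nat_lit 0x30212) (nat_lit 0) (p (nat_lit 0x38112) (nat_lit 0) (p (nat_lit 0x28092) (nat_lit 0) (p (nat_lit 0x18012)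 (nat_lit 0) pn))))))))))))))))))))) :=
  Cl.node (nat_lit 0x119) (nat_lit 2) (by decide +kernel) (ClAll.succ (ClAll.succ ClAll.zero s27) s28)

def n22 : Cl (O (nat_lit 5)) (R (nat_lit 18641))
    (p (nat_lit 0x89) (nat_lit 0) (p (nat_lit 0x41) (nat_lit 0) (p (nat_lit 0x10a0a8908881a) (nat_lit 0) (p (nat_lit 0x98a0888079a) (nat_lit 0) (p (nat_lit 0x108898807871a) (nat_lit 0) (p (nat_lit 0x8090787069a) (nat_lit 0) (p (nat_lit 0x8000000000800080706860a) (nat_lit 0) (p (nat_lit 0x8000000000800070686058a) (nat_lit 0) (p (nat_lit 0x10786058502) (nat_lit 0) (p (nat_lit 0x705850482) (nat_lit 0) (p (nat_lit 0x16000c) (nat_lit 0) (p (nat_lit 0x68512) (nat_lit 0) (p (nat_lit 0x58492) (nat_lit 0) (p (nat_lit 0x48412) (nat_lit 0) (p (nat_lit 0x50312) (nat_lit 0) (p (nat_lit 0x40292) (nat_lit 0) (p (nat_lit 0x30212) (nat_lit 0) (p (nat_lit 0x38112) (nat_lit 0) (p (nat_lit 0x28092) (nat_lit 0) (p (nat_lit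 0x18012) (nat_lit 0) pn)))))))))))))))))))) :=
  Cl.node (nat_lit 0xd1) (nat_lit 2) (by decide +kernel) (ClAll.succ (ClAll.succ ClAll.zero n16) n17)

def n23 : Cl (O (nat_lit 5)) (R (nat_lit 18641))
    (p (nat_lit 0x89) (nat_lit 1) (p (nat_lit 0x41) (nat_lit 0) (p (nat_lit 0x10a0a8908881a) (nat_lit 0) (p (nat_lit 0x98a0888079a) (nat_lit 0) (p (nat_lit 0x108898807871a) (nat_lit 0) (p (nat_lit 0x8090787069a) (nat_lit 0) (p (nat_lit 0x8000000000800080706860a) (nat_lit 0) (p (nat_lit 0x8000000000800070686058a) (nat_lit 0) (p (nat_lit 0x10786058502) (nat_lit 0) (p (nat_lit 0x705850482) (nat_lit 0) (p (nat_lit 0x16000c) (nat_lit 0) (p (nat_lit 0x68512) (nat_lit 0) (p (nat_lit 0x58492) (nat_lit 0) (p (nat_lit 0x48412) (nat_lit 0) (p (nat_lit 0x50312) (nat_lit 0) (p (nat_lit 0x40292) (nat_lit 0) (p (nat_lit 0x30212) (nat_lit 0) (p (nat_lit 0x38112) (nat_lit 0) (p (nat_lit 0x28092) (nat_lit 0)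 (p (nat_lit 0x18012) (nat_lit 0) pn)))))))))))))))))))) :=
  Cl.node (nat_lit 0xc9) (nat_lit 2) (by decide +kernel) (ClAll.succ (ClAll.succ ClAll.zero n18) s18)

def n24 : Cl (O (nat_lit 5)) (R (nat_lit 18641))
    (p (nat_lit 0x81) (nat_lit 0) (p (nat_lit 0x41) (nat_lit 1) (p (nat_lit 0x10a0a8908881a) (nat_lit 0) (p (nat_lit 0x98a0888079a) (nat_lit 0) (p (nat_lit 0x108898807871a) (nat_lit 0) (p (nat_lit 0x8090787069a) (nat_lit 0) (p (nat_lit 0x8000000000800080706860a) (nat_lit 0) (p (nat_lit 0x8000000000800070686058a) (nat_lit 0) (p (nat_lit 0x10786058502) (nat_lit 0) (p (nat_lit 0x705850482) (nat_lit 0) (p (nat_lit 0x16000c) (nat_lit 0) (p (nat_lit 0x68512) (nat_lit 0) (p (nat_lit 0x58492) (nat_lit 0) (p (nat_lit 0x48412) (nat_lit 0) (p (nat_lit 0x50312) (nat_lit 0) (p (nat_lit 0x40292) (nat_lit 0) (p (nat_lit 0x30212) (nat_lit 0) (p (nat_lit 0x38112) (nat_lit 0) (p (nat_lit 0x28092)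 (nat_lit 0) (p (nat_lit 0x18012) (nat_lit 0) pn)))))))))))))))))))) :=
  Cl.node (nat_lit 0xd1) (nat_lit 2) (by decide +kernel) (ClAll.succ (ClAll.succ ClAll.zero n19) n20)

def n25 : Cl (O (nat_lit 5)) (R (nat_lit 18641))
    (p (nat_lit 0x81) (nat_lit 1) (p (nat_lit 0x41) (nat_lit 1) (p (nat_lit 0x10a0a8908881a) (nat_lit 0) (p (nat_lit 0x98a0888079a) (nat_lit 0) (p (nat_lit 0x108898807871a) (nat_lit 0) (p (nat_lit 0x8090787069a) (nat_lit 0) (p (nat_lit 0x8000000000800080706860a) (nat_lit 0) (p (nat_lit 0x8000000000800070686058a) (nat_lit 0) (p (nat_lit 0x10786058502) (nat_lit 0) (p (nat_lit 0x705850482) (nat_lit 0) (p (nat_lit 0x16000c) (nat_lit 0) (p (nat_lit 0x68512) (nat_lit 0) (p (nat_lit 0x58492) (nat_lit 0) (p (nat_lit 0x48412) (nat_lit 0) (p (nat_lit 0x50312) (nat_lit 0) (p (nat_lit 0x40292) (nat_lit 0) (p (nat_lit 0x30212) (nat_lit 0) (p (nat_lit 0x38112) (nat_lit 0) (p (nat_lit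 0x28092) (nat_lit 0) (p (nat_lit 0x18012) (nat_lit 0) pn)))))))))))))))))))) :=
  Cl.node (nat_lit 0xc1) (nat_lit 2) (by decide +kernel) (ClAll.succ (ClAll.succ ClAll.zero n21) s29)

def n26 : Cl (O (nat_lit 5)) (R (nat_lit 18641))
    (p (nat_lit 0x41) (nat_lit 0) (p (nat_lit 0x10a0a8908881a) (nat_lit 0) (p (nat_lit 0x98a0888079a) (nat_lit 0) (p (nat_lit 0x108898807871a) (nat_lit 0) (p (nat_lit 0x8090787069a) (nat_lit 0) (p (nat_lit 0x8000000000800080706860a) (nat_lit 0) (p (nat_lit 0x8000000000800070686058a) (nat_lit 0) (p (nat_lit 0x10786058502) (nat_lit 0) (p (nat_lit 0x705850482) (nat_lit 0) (p (nat_lit 0x16000c) (nat_lit 0) (p (nat_lit 0x68512) (nat_lit 0) (p (nat_lit 0x58492) (nat_lit 0) (p (nat_lit 0x48412) (nat_lit 0) (p (nat_lit 0x50312) (nat_lit 0) (p (nat_lit 0x40292) (nat_lit 0) (p (nat_lit 0x30212) (nat_lit 0) (p (nat_lit 0x38112) (nat_lit 0) (p (nat_lit 0x28092) (nat_lit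 0) (p (nat_lit 0x18012) (nat_lit 0) pn))))))))))))))))))) :=
  Cl.node (nat_lit 0x89) (nat_lit 2) (by decide +kernel) (ClAll.succ (ClAll.succ ClAll.zero n22) n23)

def n27 : Cl (O (nat_lit 5)) (R (nat_lit 18641))
    (p (nat_lit 0x41) (nat_lit 1) (p (nat_lit 0x10a0a8908881a) (nat_lit 0) (p (nat_lit 0x98a0888079a) (nat_lit 0) (p (nat_lit 0x108898807871a) (nat_lit 0) (p (nat_lit 0x8090787069a) (nat_lit 0) (p (nat_lit 0x8000000000800080706860a) (nat_lit 0) (p (nat_lit 0x8000000000800070686058a) (nat_lit 0) (p (nat_lit 0x10786058502) (nat_lit 0) (p (nat_lit 0x705850482) (nat_lit 0) (p (nat_lit 0x16000c) (nat_lit 0) (p (nat_lit 0x68512) (nat_lit 0) (p (nat_lit 0x58492) (nat_lit 0) (p (nat_lit 0x48412) (nat_lit 0) (p (nat_lit 0x50312) (nat_lit 0) (p (nat_lit 0x40292) (nat_lit 0) (p (nat_lit 0x30212) (nat_lit 0) (p (nat_lit 0x38112) (nat_lit 0) (p (nat_lit 0x28092) (nat_lit 0) (p (nat_lit 0x18012)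 (nat_lit 0) pn))))))))))))))))))) :=
  Cl.node (nat_lit 0x81) (nat_lit 2) (by decide +kernel) (ClAll.succ (ClAll.succ ClAll.zero n24) n25)

def n28 : Cl (O (nat_lit 5)) (R (nat_lit 18641))
    (p (nat_lit 0x10a0a8908881a) (nat_lit 0) (p (nat_lit 0x98a0888079a) (nat_lit 0) (p (nat_lit 0x108898807871a) (nat_lit 0) (p (nat_lit 0x8090787069a) (nat_lit 0) (p (nat_lit 0x8000000000800080706860a) (nat_lit 0) (p (nat_lit 0x8000000000800070686058a) (nat_lit 0) (p (nat_lit 0x10786058502) (nat_lit 0) (p (nat_lit 0x705850482) (nat_lit 0) (p (nat_lit 0x16000c) (nat_lit 0) (p (nat_lit 0x68512) (nat_lit 0) (p (nat_lit 0x58492) (nat_lit 0) (p (nat_lit 0x48412) (nat_lit 0) (p (nat_lit 0x50312) (nat_lit 0) (p (nat_lit 0x40292) (nat_lit 0) (p (nat_lit 0x30212) (nat_lit 0) (p (nat_lit 0x38112) (nat_lit 0) (p (nat_lit 0x28092) (nat_lit 0) (p (nat_lit 0x18012) (nat_lit 0) pn)))))))))))))))))) :=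
  Cl.node (nat_lit 0x41) (nat_lit 2) (by decide +kernel) (ClAll.succ (ClAll.succ ClAll.zero n26) n27)

def n29 : Cl (O (nat_lit 5)) (R (nat_lit 18641))
    (p (nat_lit 0x98a0888079a) (nat_lit 0) (p (nat_lit 0x108898807871a) (nat_lit 0) (p (nat_lit 0x8090787069a) (nat_lit 0) (p (nat_lit 0x8000000000800080706860a) (nat_lit 0) (p (nat_lit 0x8000000000800070686058a) (nat_lit 0) (p (nat_lit 0x10786058502) (nat_lit 0) (p (nat_lit 0x705850482) (nat_lit 0) (p (nat_lit 0x16000c) (nat_lit 0) (p (nat_lit 0x68512) (nat_lit 0) (p (nat_lit 0x58492) (nat_lit 0) (p (nat_lit 0x48412) (nat_lit 0) (p (nat_lit 0x50312) (nat_lit 0) (p (nat_lit 0x40292) (nat_lit 0) (p (nat_lit 0x30212) (nat_lit 0) (p (nat_lit 0x38112) (nat_lit 0) (p (nat_lit 0x28092) (nat_lit 0) (p (nat_lit 0x18012) (nat_lit 0) pn))))))))))))))))) :=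
  Cl.node (nat_lit 0x10a0a8908881a) (nat_lit 1) (by decide +kernel) (ClAll.succ ClAll.zero n28)

def n30 : Cl (O (nat_lit 5)) (R (nat_lit 18641))
    (p (nat_lit 0x108898807871a) (nat_lit 0) (p (nat_lit 0x8090787069a) (nat_lit 0) (p (nat_lit 0x8000000000800080706860a) (nat_lit 0) (p (nat_lit 0x8000000000800070686058a) (nat_lit 0) (p (nat_lit 0x10786058502) (nat_lit 0) (p (nat_lit 0x705850482) (nat_lit 0) (p (nat_lit 0x16000c) (nat_lit 0) (p (nat_lit 0x68512) (nat_lit 0) (p (nat_lit 0x58492) (nat_lit 0) (p (nat_lit 0x48412) (nat_lit 0) (p (nat_lit 0x50312) (nat_lit 0) (p (nat_lit 0x40292) (nat_lit 0) (p (nat_lit 0x30212) (nat_lit 0) (p (nat_lit 0x38112) (nat_lit 0) (p (nat_lit 0x28092) (nat_lit 0) (p (nat_lit 0x18012) (nat_lit 0) pn)))))))))))))))) :=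
  Cl.node (nat_lit 0x98a0888079a) (nat_lit 1) (by decide +kernel) (ClAll.succ ClAll.zero n29)

def n31 : Cl (O (nat_lit 5)) (R (nat_lit 18641))
    (p (nat_lit 0x8090787069a) (nat_lit 0) (p (nat_lit 0x8000000000800080706860a) (nat_lit 0) (p (nat_lit 0x8000000000800070686058a) (nat_lit 0) (p (nat_lit 0x10786058502) (nat_lit 0) (p (nat_lit 0x705850482) (nat_lit 0) (p (nat_lit 0x16000c) (nat_lit 0) (p (nat_lit 0x68512) (nat_lit 0) (p (nat_lit 0x58492) (nat_lit 0) (p (nat_lit 0x48412) (nat_lit 0) (p (nat_lit 0x50312) (nat_lit 0) (p (nat_lit 0x40292) (nat_lit 0) (p (nat_lit 0x30212) (nat_lit 0) (p (nat_lit 0x38112) (nat_lit 0) (p (nat_lit 0x28092) (nat_lit 0) (p (nat_lit 0x18012) (nat_lit 0) pn))))))))))))))) :=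
  Cl.node (nat_lit 0x108898807871a) (nat_lit 1) (by decide +kernel) (ClAll.succ ClAll.zero n30)

def n32 : Cl (O (nat_lit 5)) (R (nat_lit 18641))
    (p (nat_lit 0x8000000000800080706860a) (nat_lit 0) (p (nat_lit 0x8000000000800070686058a) (nat_lit 0) (p (nat_lit 0x10786058502) (nat_lit 0) (p (nat_lit 0x705850482) (nat_lit 0) (p (nat_lit 0x16000c) (nat_lit 0) (p (nat_lit 0x68512) (nat_lit 0) (p (nat_lit 0x58492) (nat_lit 0) (p (nat_lit 0x48412) (nat_lit 0) (p (nat_lit 0x50312) (nat_lit 0) (p (nat_lit 0x40292) (nat_lit 0) (p (nat_lit 0x30212) (nat_lit 0) (p (nat_lit 0x38112) (nat_lit 0) (p (nat_lit 0x28092) (nat_lit 0) (p (nat_lit 0x18012) (nat_lit 0) pn)))))))))))))) :=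
  Cl.node (nat_lit 0x8090787069a) (nat_lit 1) (by decide +kernel) (ClAll.succ ClAll.zero n31)

def n33 : Cl (O (nat_lit 5)) (R (nat_lit 18641))
    (p (nat_lit 0x8000000000800070686058a) (nat_lit 0) (p (nat_lit 0x10786058502) (nat_lit 0) (p (nat_lit 0x705850482) (nat_lit 0) (p (nat_lit 0x16000c) (nat_lit 0) (p (nat_lit 0x68512) (nat_lit 0) (p (nat_lit 0x58492) (nat_lit 0) (p (nat_lit 0x48412) (nat_lit 0) (p (nat_lit 0x50312) (nat_lit 0) (p (nat_lit 0x40292) (nat_lit 0) (p (nat_lit 0x30212) (nat_lit 0) (p (nat_lit 0x38112) (nat_lit 0) (p (nat_lit 0x28092) (nat_lit 0) (p (nat_lit 0x18012) (nat_lit 0) pn))))))))))))) :=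
  Cl.node (nat_lit 0x8000000000800080706860a) (nat_lit 1) (by decide +kernel) (ClAll.succ ClAll.zero n32)

def n34 : Cl (O (nat_lit 5)) (R (nat_lit 18641))
    (p (nat_lit 0x10786058502) (nat_lit 0) (p (nat_lit 0x705850482) (nat_lit 0) (p (nat_lit 0x16000c) (nat_lit 0) (p (nat_lit 0x68512) (nat_lit 0) (p (nat_lit 0x58492) (nat_lit 0) (p (nat_lit 0x48412) (nat_lit 0) (p (nat_lit 0x50312) (nat_lit 0) (p (nat_lit 0x40292) (nat_lit 0) (p (nat_lit 0x30212) (nat_lit 0) (p (nat_lit 0x38112) (nat_lit 0) (p (nat_lit 0x28092) (nat_lit 0) (p (nat_lit 0x18012) (nat_lit 0) pn)))))))))))) :=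
  Cl.node (nat_lit 0x8000000000800070686058a) (nat_lit 1) (by decide +kernel) (ClAll.succ ClAll.zero n33)

def n35 : Cl (O (nat_lit 5)) (R (nat_lit 18641))
    (p (nat_lit 0x705850482) (nat_lit 0) (p (nat_lit 0x16000c) (nat_lit 0) (p (nat_lit 0x68512) (nat_lit 0) (p (nat_lit 0x58492) (nat_lit 0) (p (nat_lit 0x48412) (nat_lit 0) (p (nat_lit 0x50312) (nat_lit 0) (p (nat_lit 0x40292) (nat_lit 0) (p (nat_lit 0x30212) (nat_lit 0) (p (nat_lit 0x38112) (nat_lit 0) (p (nat_lit 0x28092) (nat_lit 0) (p (nat_lit 0x18012) (nat_lit 0) pn))))))))))) :=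
  Cl.node (nat_lit 0x10786058502) (nat_lit 1) (by decide +kernel) (ClAll.succ ClAll.zero n34)

def n36 : Cl (O (nat_lit 5)) (R (nat_lit 18641))
    (p (nat_lit 0x16000c) (nat_lit 0) (p (nat_lit 0x68512) (nat_lit 0) (p (nat_lit 0x58492) (nat_lit 0) (p (nat_lit 0x48412) (nat_lit 0) (p (nat_lit 0x50312) (nat_lit 0) (p (nat_lit 0x40292) (nat_lit 0) (p (nat_lit 0x30212) (nat_lit 0) (p (nat_lit 0x38112) (nat_lit 0) (p (nat_lit 0x28092) (nat_lit 0) (p (nat_lit 0x18012) (nat_lit 0) pn)))))))))) :=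
  Cl.node (nat_lit 0x705850482) (nat_lit 1) (by decide +kernel) (ClAll.succ ClAll.zero n35)

def n37 : Cl (O (nat_lit 5)) (R (nat_lit 18641))
    (p (nat_lit 0x68512) (nat_lit 0) (p (nat_lit 0x58492) (nat_lit 0) (p (nat_lit 0x48412) (nat_lit 0) (p (nat_lit 0x50312) (nat_lit 0) (p (nat_lit 0x40292) (nat_lit 0) (p (nat_lit 0x30212) (nat_lit 0) (p (nat_lit 0x38112) (nat_lit 0) (p (nat_lit 0x28092) (nat_lit 0) (p (nat_lit 0x18012) (nat_lit 0) pn))))))))) :=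
  Cl.node (nat_lit 0x16000c) (nat_lit 2) (by decide +kernel) (ClAll.succ (ClAll.succ ClAll.zero n36) s30)

def n38 : Cl (O (nat_lit 5)) (R (nat_lit 18641))
    (p (nat_lit 0x58492) (nat_lit 0) (p (nat_lit 0x48412) (nat_lit 0) (p (nat_lit 0x50312) (nat_lit 0) (p (nat_lit 0x40292) (nat_lit 0) (p (nat_lit 0x30212) (nat_lit 0) (p (nat_lit 0x38112) (nat_lit 0) (p (nat_lit 0x28092) (nat_lit 0) (p (nat_lit 0x18012) (nat_lit 0) pn)))))))) :=
  Cl.node (nat_lit 0x68512) (nat_lit 1) (by decide +kernel) (ClAll.succ ClAll.zero n37)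

def n39 : Cl (O (nat_lit 5)) (R (nat_lit 18641))
    (p (nat_lit 0x48412) (nat_lit 0) (p (nat_lit 0x50312) (nat_lit 0) (p (nat_lit 0x40292) (nat_lit 0) (p (nat_lit 0x30212) (nat_lit 0) (p (nat_lit 0x38112) (nat_lit 0) (p (nat_lit 0x28092) (nat_lit 0) (p (nat_lit 0x18012) (nat_lit 0) pn))))))) :=
  Cl.node (nat_lit 0x58492) (nat_lit 1) (by decide +kernel) (ClAll.succ ClAll.zero n38)

def n40 : Cl (O (nat_lit 5)) (R (nat_lit 18641))
    (p (nat_lit 0x50312) (nat_lit 0) (p (nat_lit 0x40292) (nat_lit 0) (p (nat_lit 0x30212) (nat_lit 0) (p (nat_lit 0x38112) (nat_lit 0) (p (nat_lit 0x28092) (nat_lit 0) (p (nat_lit 0x18012) (nat_lit 0) pn)))))) :=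
  Cl.node (nat_lit 0x48412) (nat_lit 1) (by decide +kernel) (ClAll.succ ClAll.zero n39)

def n41 : Cl (O (nat_lit 5)) (R (nat_lit 18641))
    (p (nat_lit 0x40292) (nat_lit 0) (p (nat_lit 0x30212) (nat_lit 0) (p (nat_lit 0x38112) (nat_lit 0) (p (nat_lit 0x28092) (nat_lit 0) (p (nat_lit 0x18012) (nat_lit 0) pn))))) :=
  Cl.node (nat_lit 0x50312) (nat_lit 1) (by decide +kernel) (ClAll.succ ClAll.zero n40)

def n42 : Cl (O (nat_lit 5)) (R (nat_lit 18641))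
    (p (nat_lit 0x30212) (nat_lit 0) (p (nat_lit 0x38112) (nat_lit 0) (p (nat_lit 0x28092) (nat_lit 0) (p (nat_lit 0x18012) (nat_lit 0) pn)))) :=
  Cl.node (nat_lit 0x40292) (nat_lit 1) (by decide +kernel) (ClAll.succ ClAll.zero n41)

def n43 : Cl (O (nat_lit 5)) (R (nat_lit 18641))
    (p (nat_lit 0x38112) (nat_lit 0) (p (nat_lit 0x28092) (nat_lit 0) (p (nat_lit 0x18012) (nat_lit 0) pn))) :=
  Cl.node (nat_lit 0x30212) (nat_lit 1) (by decide +kernel) (ClAll.succ ClAll.zero n42)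

def n44 : Cl (O (nat_lit 5)) (R (nat_lit 18641))
    (p (nat_lit 0x28092) (nat_lit 0) (p (nat_lit 0x18012) (nat_lit 0) pn)) :=
  Cl.node (nat_lit 0x38112) (nat_lit 1) (by decide +kernel) (ClAll.succ ClAll.zero n43)

def n45 : Cl (O (nat_lit 5)) (R (nat_lit 18641))
    (p (nat_lit 0x18012) (nat_lit 0) pn) :=
  Cl.node (nat_lit 0x28092) (nat_lit 1) (by decide +kernel) (ClAll.succ ClAll.zero n44)

def n46 : Cl (O (nat_lit 5)) (R (nat_lit 18641))
    pn :=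
  Cl.node (nat_lit 0x18012) (nat_lit 1) (by decide +kernel) (ClAll.succ ClAll.zero n45)

theorem top : Cl (O (nat_lit 5)) (R (nat_lit 18641)) pn := n46

end Pool.Agent.Gen.F5.X123DDCm5
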